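import Pool.Agent.H932R4.CMO.Stmts

set_option autoImplicit false

open Finset

namespace Pool.Agent.H467R3.CMO

open Pool.Agent.H932R4.CMO

/-- the weight of an integer -/
noncomputable def g (n : ℕ) : ℝ := 1 / (n * (Real.log n) ^ 2)

theorem g_nonneg (n : ℕ) : 0 ≤ g n := by unfold g; positivity

theorem one_le_log (n : ℕ) (hn : 3 ≤ n) : 1 ≤ Real.log n := by
  have hn' : (3 : ℝ) ≤ n := by exact_mod_cast hn
  rw [Real.le_log_iff_exp_le (by linarith)]
  have := Real.exp_one_lt_d9
  linarith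

theorem g_le (n : ℕ) (hn : 3 ≤ n) : g n ≤ 1 / 3 := by
  have hn' : (3 : ℝ) ≤ n := by exact_mod_cast hn
  have h1 := one_le_log n hn
  unfold g
  apply one_div_le_one_div_of_le (by norm_num)
  nlinarith [mul_self_nonneg (Real.log n - 1)]

theorem g_tele (n : ℕ) (hn : 3 ≤ n) :
    g n ≤ 1 / Real.log ((n : ℝ) - 1) - 1 / Real.log n := by
  have hn' : (3 : ℝ) ≤ n := by exact_mod_cast hn
  have h1 : 0 < Real.log ((n : ℝ) - 1) := Real.log_pos (by linarith)
  have h2 : 0 < Real.log (n : ℝ) := Real.log_pos (by linarith)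
  have h3 : Real.log ((n : ℝ) - 1) ≤ Real.log n := Real.log_le_log (by linarith) (by linarith)
  have h4 : 1 / (n : ℝ) ≤ Real.log n - Real.log ((n : ℝ) - 1) := by
    have h5 := Real.log_le_sub_one_of_pos (x := ((n : ℝ) - 1) / n) (by
      apply div_pos <;> linarith)
    rw [Real.log_div (by linarith) (by linarith)] at h5
    have h6 : ((n : ℝ) - 1) / n - 1 = -(1 / n) := by
      field_simp
      ring
    rw [h6] at h5
    linarith
  unfold g
  rw [div_sub_div _ _ h1.ne' h2.ne', one_mul, mul_one]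
  rw [← div_div]
  apply div_le_div₀ (by linarith) h4 (by positivity)
  rw [pow_two]
  exact mul_le_mul_of_nonneg_right h3 h2.le

theorem g_sum (N k : ℕ) (hN : 3 ≤ N) :
    ∑ n ∈ Ico N (N + k), g n ≤ 1 / Real.log ((N : ℝ) - 1) - 1 / Real.log ((N : ℝ) + k - 1) := by
  induction k with
  | zero => simp
  | succ k ih =>
    rw [← add_assoc, Finset.sum_Ico_succ_top (by omega)]
    have h1 := g_tele (N + k) (by omega)
    push_cast at h1 ⊢
    have h2 : (N : ℝ) + (k + 1) - 1 = N + k := by ring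
    rw [h2]
    linarith

theorem g_sum' (N M : ℕ) (hN : 3 ≤ N) :
    ∑ n ∈ Icc N M, g n ≤ 1 / Real.log ((N : ℝ) - 1) := by
  have h1 := g_sum N (M + 1) hN
  have h2 : ∑ n ∈ Icc N M, g n ≤ ∑ n ∈ Ico N (N + (M + 1)), g n := by
    apply Finset.sum_le_sum_of_subset_of_nonneg
    · intro n hn
      rw [mem_Icc] at hn
      rw [mem_Ico]
      omega
    · intro n _ _
      exact g_nonneg n
  have hN' : (3 : ℝ) ≤ N := by exact_mod_cast hN
  have h3 : 0 < Real.log ((N : ℝ) + (M + 1 : ℕ) - 1) := by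
    apply Real.log_pos
    push_cast
    have : (0 : ℝ) ≤ M := Nat.cast_nonneg M
    linarith
  have h4 := one_div_pos.mpr h3
  linarith

open Classical in
theorem bw_div (N₀ M m : ℕ) (hm : m ≠ 0 ∧ ∀ p ∈ m.primeFactors, N₀ ≤ p) (hM : m ≤ M) :
    bw N₀ m / m = ∏ n ∈ Icc N₀ M, g n ^ (m.factorization n) := by
  unfold bw
  rw [if_pos hm]
  have h1 : (m : ℝ) = ∏ p ∈ m.primeFactors, (p : ℝ) ^ (m.factorization p) := by
    conv_lhs => rw [← Nat.prod_factorization_pow_eq_self hm.1]
    rw [Finsupp.prod, Nat.support_factorization]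
    push_cast
    rfl
  rw [Finsupp.prod, Nat.support_factorization]
  conv_lhs => rw [h1]
  rw [← Finset.prod_div_distrib]
  have h2 : ∏ p ∈ m.primeFactors, (1 / (Real.log p) ^ 2) ^ (m.factorization p) /
      (p : ℝ) ^ (m.factorization p) = ∏ p ∈ m.primeFactors, g p ^ (m.factorization p) := by
    refine Finset.prod_congr rfl fun p _ => ?_
    rw [← div_pow]
    unfold g
    rw [div_div, mul_comm]
  rw [h2]
  apply Finset.prod_subset
  · intro p hp
    rw [mem_Icc]
    exact ⟨hm.2 p hp, (Nat.le_of_mem_primeFactors hp).trans hM⟩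
  · intro p _ hp
    have : m.factorization p = 0 := by
      rw [← Finsupp.notMem_support_iff, Nat.support_factorization]
      exact hp
    rw [this, pow_zero]

theorem geom_le (x : ℝ) (hx0 : 0 ≤ x) (hx : x ≤ 1 / 3) (M : ℕ) :
    ∑ k ∈ range (M + 1), x ^ k ≤ Real.exp (2 * x) := by
  have h1 := geom_sum_mul_neg x (M + 1)
  have h2 : 0 ≤ x ^ (M + 1) := pow_nonneg hx0 _
  have h3 : ∑ k ∈ range (M + 1), x ^ k ≤ 1 + 2 * x := by
    have h4 : (∑ k ∈ range (M + 1), x ^ k) * (1 - x) ≤ (1 + 2 * x) * (1 - x) := by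
      rw [h1]
      nlinarith
    exact le_of_mul_le_mul_right h4 (by linarith)
  have := Real.add_one_le_exp (2 * x)
  linarith

open Classical in
theorem sum_le (N₀ M : ℕ) (hN : 3 ≤ N₀) :
    ∑ m ∈ Icc 2 M, bw N₀ m / m ≤ Real.exp (2 / Real.log ((N₀ : ℝ) - 1)) - 1 := by
  set S := (Icc 2 M).filter (fun m => m ≠ 0 ∧ ∀ p ∈ m.primeFactors, N₀ ≤ p) with hS
  set T := Icc N₀ M with hT
  let t : ℕ → Finset ℕ := fun _ => range (M + 1)
  let G : (∀ a ∈ T, ℕ) → ℝ := fun e => ∏ x ∈ T.attach, g x.1 ^ (e x.1 x.2)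
  let φ : ℕ → (∀ a ∈ T, ℕ) := fun m a _ => m.factorization a
  have hG : ∀ m, G (φ m) = ∏ n ∈ T, g n ^ (m.factorization n) := by
    intro m
    exact Finset.prod_attach T (fun n => g n ^ (m.factorization n))
  have h1 : ∑ m ∈ Icc 2 M, bw N₀ m / m = ∑ m ∈ S, G (φ m) := by
    rw [hS, Finset.sum_filter]
    refine Finset.sum_congr rfl fun m hm => ?_
    rw [mem_Icc] at hm
    split_ifs with h
    · rw [hG]
      exact bw_div N₀ M m h hm.2
    · unfold bw
      rw [if_neg h, zero_div]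
  have hinj : Set.InjOn φ (S : Set ℕ) := by
    intro a ha b hb hab
    have ha' := mem_filter.mp (mem_coe.mp ha)
    have hb' := mem_filter.mp (mem_coe.mp hb)
    rw [mem_Icc] at ha' hb'
    apply Nat.eq_of_factorization_eq ha'.2.1 hb'.2.1
    intro p
    by_cases hp : p ∈ T
    · have := congrFun (congrFun hab p) hp
      exact this
    · have hz : ∀ m : ℕ, (m ≤ M) → (∀ p ∈ m.primeFactors, N₀ ≤ p) → m.factorization p = 0 := by
        intro m hm hm2
        rw [← Finsupp.notMem_support_iff, Nat.support_factorization]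
        intro hpm
        apply hp
        rw [hT, mem_Icc]
        exact ⟨hm2 p hpm, (Nat.le_of_mem_primeFactors hpm).trans hm⟩
      rw [hz a ha'.1.2 ha'.2.2, hz b hb'.1.2 hb'.2.2]
  have h2 : ∑ m ∈ S, G (φ m) = ∑ e ∈ S.image φ, G e := by
    rw [Finset.sum_image hinj]
  have hGnn : ∀ e, 0 ≤ G e := fun e => Finset.prod_nonneg fun x _ => pow_nonneg (g_nonneg _) _
  have hmem1 : φ 1 ∈ T.pi t := by
    rw [Finset.mem_pi]
    intro a _
    simp [φ, t]
  have h3 : ∑ e ∈ S.image φ, G e ≤ ∑ e ∈ (T.pi t).erase (φ 1), G e := by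
    apply Finset.sum_le_sum_of_subset_of_nonneg
    · intro e he
      rw [mem_image] at he
      obtain ⟨m, hm, rfl⟩ := he
      have hm' := mem_filter.mp hm
      rw [mem_Icc] at hm'
      rw [mem_erase, Finset.mem_pi]
      refine ⟨?_, fun a _ => ?_⟩
      · intro h
        have h5 : m = 1 := by
          by_contra hne
          obtain ⟨p, hp, hpm⟩ := Nat.exists_prime_and_dvd hne
          have hpf : p ∈ m.primeFactors := Nat.mem_primeFactors.mpr ⟨hp, hpm, hm'.2.1⟩
          have hpT : p ∈ T := by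
            rw [hT, mem_Icc]
            exact ⟨hm'.2.2 p hpf, (Nat.le_of_mem_primeFactors hpf).trans hm'.1.2⟩
          have h6 := congrFun (congrFun h p) hpT
          simp only [φ, Nat.factorization_one, Finsupp.coe_zero, Pi.zero_apply] at h6
          have h7 : p ∉ m.factorization.support := Finsupp.notMem_support_iff.mpr h6
          rw [Nat.support_factorization] at h7
          exact h7 hpf
        omega
      · simp only [φ, t, mem_range]
        have h8 : m.factorization a < m := Nat.factorization_lt a hm'.2.1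
        omega
    · intro e _ _
      exact hGnn e
  have h4 : ∑ e ∈ (T.pi t).erase (φ 1), G e = ∏ n ∈ T, ∑ k ∈ range (M + 1), g n ^ k - 1 := by
    rw [Finset.prod_sum, ← Finset.sum_erase_add _ _ hmem1]
    have : G (φ 1) = 1 := by
      rw [hG]
      simp
    have h9 : ∏ x ∈ T.attach, g x.1 ^ (φ 1 x.1 x.2) = 1 := this
    rw [h9]
    simp only [add_sub_cancel_right]
    rfl
  have h5 : ∏ n ∈ T, ∑ k ∈ range (M + 1), g n ^ k ≤ Real.exp (∑ n ∈ T, 2 * g n) := by
    rw [Real.exp_sum]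
    apply Finset.prod_le_prod
    · intro n _
      exact Finset.sum_nonneg fun k _ => pow_nonneg (g_nonneg n) k
    · intro n hn
      rw [hT, mem_Icc] at hn
      exact geom_le (g n) (g_nonneg n) (g_le n (by omega)) M
  have h6 : ∑ n ∈ T, 2 * g n ≤ 2 / Real.log ((N₀ : ℝ) - 1) := by
    rw [← Finset.mul_sum]
    have := g_sum' N₀ M hN
    have h7 : 2 / Real.log ((N₀ : ℝ) - 1) = 2 * (1 / Real.log ((N₀ : ℝ) - 1)) := by ring
    rw [h7]
    exact mul_le_mul_of_nonneg_left this (by norm_num)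
  have h7 := Real.exp_le_exp.mpr h6
  rw [h1, h2]
  linarith

/-- T3: the tail of the Dirichlet series of the weight is small -/
theorem t3 : Pool.Agent.H932R4.CMO.T3 := by
  intro τ hτ
  have hl : 0 < Real.log (1 + τ) := Real.log_pos (by linarith)
  obtain ⟨N, hN⟩ := exists_nat_gt (Real.exp (2 / Real.log (1 + τ)) + 1)
  refine ⟨N + 3, by omega, fun N₀ hN₀ M => ?_⟩
  refine (sum_le N₀ M (by omega)).trans ?_
  have hN₀' : (N : ℝ) + 3 ≤ N₀ := by exact_mod_cast hN₀
  have h1 : 2 / Real.log (1 + τ) ≤ Real.log ((N₀ : ℝ) - 1) := by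
    rw [Real.le_log_iff_exp_le (by
      have := Real.exp_pos (2 / Real.log (1 + τ))
      linarith)]
    linarith
  have hpos : 0 < Real.log ((N₀ : ℝ) - 1) := lt_of_lt_of_le (by positivity) h1
  have h2 : 2 / Real.log ((N₀ : ℝ) - 1) ≤ Real.log (1 + τ) := by
    rw [div_le_iff₀ hpos]
    rw [div_le_iff₀ hl] at h1
    linarith
  have h3 := Real.exp_le_exp.mpr h2
  rw [Real.exp_log (by linarith)] at h3
  linarith

end Pool.Agent.H467R3.CMO
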